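import Pool.Agent.Lib.MP_a2be38_co_h65.Almost

set_option autoImplicit false

open MeasureTheory

namespace Pool.Agent.Results.MP_a2be38_co.AlmostPositive

/-- For every `t` there is a constant `C` such that in every dimension `d` there are at most
`C d^t` unit vectors with real weights whose weighted sum of every polynomial of degree at most
`2t + 1` is its integral over the unit sphere, such that the negative weights sum up to at most
`C d^(-3/2)` times the sum of all weights and at most `C d^(t-2)` weights are negative. -/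
theorem result :
    ∀ t : ℕ, 1 ≤ t → ∃ C : ℝ, ∀ d : ℕ, 1 ≤ d →
      ∃ N : ℕ, (N : ℝ) ≤ C * (d : ℝ) ^ t ∧
        ∃ x : Fin N → Metric.sphere (0 : EuclideanSpace ℝ (Fin d)) 1,
        ∃ w : Fin N → ℝ,
          (∀ p : MvPolynomial (Fin d) ℝ, p.totalDegree ≤ 2 * t + 1 →
            ∑ i, w i * MvPolynomial.eval
                (fun j => WithLp.ofLp (x i : EuclideanSpace ℝ (Fin d)) j) p
              = ∫ y, MvPolynomial.eval
                (fun j => WithLp.ofLp (y : EuclideanSpace ℝ (Fin d)) j) p
                ∂(volume : Measure (EuclideanSpace ℝ (Fin d))).toSphere) ∧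
          (∑ i, max (-(w i)) 0) * ((d : ℝ) * Real.sqrt d) ≤ C * ∑ i, w i ∧
          ((Finset.univ.filter fun i => w i < 0).card : ℝ) * (d : ℝ) ^ 2 ≤ C * (d : ℝ) ^ t := by
  intro t ht
  obtain ⟨C, hC⟩ := Pool.Agent.A2B65.almost_positive ht
  refine ⟨C, fun d hd => ?_⟩
  obtain ⟨N, hN, x, w, h1, h2, h3⟩ := hC d hd
  exact ⟨N, hN, x, w, h1, h3, h2⟩

end Pool.Agent.Results.MP_a2be38_co.AlmostPositive
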