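import Pool.Agent.Lib.MP_a2be38_co_h69.Main

set_option autoImplicit false

open MeasureTheory

namespace Pool.Agent.Results.MP_a2be38_co.GeneralStrength

/-- For every `t` there is a constant `C` such that in every dimension `d` there are at most
`C d^(t + ⌊t/2⌋)` unit vectors with positive weights whose weighted sum of every polynomial of
degree at most `2t + 1` is its integral over the unit sphere. -/
theorem result :
    ∀ t : ℕ, 1 ≤ t → ∃ C : ℝ, ∀ d : ℕ, 1 ≤ d →
      ∃ N : ℕ, (N : ℝ) ≤ C * (d : ℝ) ^ (t + t / 2) ∧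
        ∃ x : Fin N → Metric.sphere (0 : EuclideanSpace ℝ (Fin d)) 1,
        ∃ w : Fin N → ℝ, (∀ i, 0 < w i) ∧
          ∀ p : MvPolynomial (Fin d) ℝ, p.totalDegree ≤ 2 * t + 1 →
            ∑ i, w i * MvPolynomial.eval
                (fun j => WithLp.ofLp (x i : EuclideanSpace ℝ (Fin d)) j) p
              = ∫ y, MvPolynomial.eval
                (fun j => WithLp.ofLp (y : EuclideanSpace ℝ (Fin d)) j) p
                ∂(volume : Measure (EuclideanSpace ℝ (Fin d))).toSphere := by
  intro t ht
  obtain ⟨C, hC⟩ := Pool.Agent.A2B69.general_designs ht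
  refine ⟨C, fun d hd => ?_⟩
  obtain ⟨N, hN, hD⟩ := hC d hd
  exact ⟨N, by exact_mod_cast hN, hD⟩

end Pool.Agent.Results.MP_a2be38_co.GeneralStrength
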