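import Pool.Agent.Lib.MP_a2be38_co_h65.Barrier

set_option autoImplicit false

open MeasureTheory

namespace Pool.Agent.Results.MP_a2be38_co.SignBarrier

/-- Let `t ≥ 3`. Weighted spherical `2t`-designs whose signs are unbiased up to strength `2k`
(over the points with the same absolute values of the coordinates as any given point, the weighted
sum of the product of the coordinates in any nonempty set of at most `2k` coordinates vanishes)
have at least `c d^(k + ⌊t/2⌋)` points. -/
theorem result :
    ∀ t : ℕ, 3 ≤ t → ∀ k : ℕ, ∃ c : ℝ, 0 < c ∧ ∀ d : ℕ, 1 ≤ d → ∀ N : ℕ,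
      ∀ x : Fin N → Metric.sphere (0 : EuclideanSpace ℝ (Fin d)) 1,
      ∀ w : Fin N → ℝ, (∀ i, 0 < w i) →
        (∀ p : MvPolynomial (Fin d) ℝ, p.totalDegree ≤ 2 * t →
          ∑ i, w i * MvPolynomial.eval
              (fun j => WithLp.ofLp (x i : EuclideanSpace ℝ (Fin d)) j) p
            = ∫ y, MvPolynomial.eval
              (fun j => WithLp.ofLp (y : EuclideanSpace ℝ (Fin d)) j) p
              ∂(volume : Measure (EuclideanSpace ℝ (Fin d))).toSphere) →
        (∀ i₀ : Fin N, ∀ A : Finset (Fin d), A.Nonempty → A.card ≤ 2 * k →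
          ∑ i ∈ Finset.univ.filter (fun i => ∀ l,
              |WithLp.ofLp (x i : EuclideanSpace ℝ (Fin d)) l| =
                |WithLp.ofLp (x i₀ : EuclideanSpace ℝ (Fin d)) l|),
            w i * ∏ l ∈ A, WithLp.ofLp (x i : EuclideanSpace ℝ (Fin d)) l = 0) →
        c * (d : ℝ) ^ (k + t / 2) ≤ N := by
  intro t ht k
  obtain ⟨c, hc, h⟩ := Pool.Agent.A2B65.barrier ht k
  exact ⟨c, hc, h⟩

end Pool.Agent.Results.MP_a2be38_co.SignBarrier
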