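import Pool.Agent.Lib.MP_a2be38_co.SixFinal

set_option autoImplicit false

open MeasureTheory

namespace Pool.Agent.Results.MP_a2be38_co.SixDesigns

/-- The case `t = 3` of the question, with strength `7` instead of `6`: there is a constant `C` such
that in every dimension `d` there are at most `C d^3` unit vectors with positive weights whose
weighted sum of every polynomial of degree at most `7` is its integral over the unit sphere. -/
theorem result :
    ∃ C : ℝ, ∀ d : ℕ, 1 ≤ d →
      ∃ N : ℕ, (N : ℝ) ≤ C * (d : ℝ) ^ 3 ∧
        ∃ x : Fin N → Metric.sphere (0 : EuclideanSpace ℝ (Fin d)) 1,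
        ∃ w : Fin N → ℝ, (∀ i, 0 < w i) ∧
          ∀ p : MvPolynomial (Fin d) ℝ, p.totalDegree ≤ 7 →
            ∑ i, w i * MvPolynomial.eval
                (fun j => WithLp.ofLp (x i : EuclideanSpace ℝ (Fin d)) j) p
              = ∫ y, MvPolynomial.eval
                (fun j => WithLp.ofLp (y : EuclideanSpace ℝ (Fin d)) j) p
                ∂(volume : Measure (EuclideanSpace ℝ (Fin d))).toSphere :=
  Pool.Agent.MP_a2be38_co.six_designs

end Pool.Agent.Results.MP_a2be38_co.SixDesigns
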